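import Pool.Agent.V8H86.GC.C

/-!
# Sixth roots of unity (helper86)
-/

set_option autoImplicit false

namespace Pool.Agent.V8H86.GC

open Finset Filter Topology
open Pool.Agent.Y760.ZG (hr mz)
open Pool.Agent.Y777.AM (ht mz_nonneg)
open Pool.Agent.R404.MZ

/-- the real and imaginary parts of `Li_w (ω ^ u, 1, ..., 1)` -/
noncomputable def x6 (u : Fin 6) (w : List ℕ) : ℝ :=
  if (u : ℕ) < 4 then (li (cz (om ^ (u : ℕ)) w)).re
  else (li (cz (om ^ ((u : ℕ) - 3)) w)).im / Real.sqrt 3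

/-- the corresponding periodic functions -/
def f6 (u : Fin 6) (n : ℕ) : ℤ := if (u : ℕ) < 4 then p6 ((u : ℕ) * n) else q6 (((u : ℕ) - 3) * n)

lemma x6_eq (u : Fin 6) {a : ℕ} {k : List ℕ} (hk : ∀ x ∈ k, 1 ≤ x) (ha : 2 ≤ a) :
    2 * x6 u (a :: k) = ws (f6 u) a k := by
  have h1 : f6 u = if (u : ℕ) < 4 then (fun n => p6 ((u : ℕ) * n))
      else fun n => q6 (((u : ℕ) - 3) * n) := by
    funext n
    unfold f6
    split_ifs <;> rfl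
  rw [x6, h1]
  split_ifs
  · rw [cz_re _ hk ha]
    ring
  · rw [cz_im _ hk ha]
    ring

lemma p6_mod (i j : ℕ) (h : i % 6 = j % 6) : p6 i = p6 j := by
  unfold p6
  rw [h]

lemma q6_mod (i j : ℕ) (h : i % 6 = j % 6) : q6 i = q6 j := by
  unfold q6
  rw [h]

lemma f6_per (u : Fin 6) (n : ℕ) : f6 u (n + 6) = f6 u n := by
  unfold f6
  split_ifs
  · refine p6_mod _ _ ?_
    rw [mul_add, Nat.add_mod, Nat.mul_mod_left, add_zero, Nat.mod_mod]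
  · refine q6_mod _ _ ?_
    rw [mul_add, Nat.add_mod, Nat.mul_mod_left, add_zero, Nat.mod_mod]

lemma f6_le (u : Fin 6) (n : ℕ) : |(f6 u n : ℝ)| ≤ 2 := by
  unfold f6
  split_ifs
  · exact p6_le' _ _
  · exact (q6_le' _ _).trans (by norm_num)

lemma f6_ind (c : Fin 6 → ℤ) (h : ∀ n, ∑ u, c u * f6 u n = 0) : c = 0 := by
  have h0 := h 0
  have h1 := h 1
  have h2 := h 2
  have h3 := h 3
  have h4 := h 4
  have h5 := h 5
  simp only [Fin.sum_univ_six] at h0 h1 h2 h3 h4 h5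
  have e0 : f6 0 0 = 2 ∧ f6 0 1 = 2 ∧ f6 0 2 = 2 ∧ f6 0 3 = 2 ∧ f6 0 4 = 2 ∧ f6 0 5 = 2 := by
    decide
  have e1 : f6 1 0 = 2 ∧ f6 1 1 = 1 ∧ f6 1 2 = -1 ∧ f6 1 3 = -2 ∧ f6 1 4 = -1 ∧ f6 1 5 = 1 := by
    decide
  have e2 : f6 2 0 = 2 ∧ f6 2 1 = -1 ∧ f6 2 2 = -1 ∧ f6 2 3 = 2 ∧ f6 2 4 = -1 ∧ f6 2 5 = -1 := by
    decide
  have e3 : f6 3 0 = 2 ∧ f6 3 1 = -2 ∧ f6 3 2 = 2 ∧ f6 3 3 = -2 ∧ f6 3 4 = 2 ∧ f6 3 5 = -2 := by
    decide
  have e4 : f6 4 0 = 0 ∧ f6 4 1 = 1 ∧ f6 4 2 = 1 ∧ f6 4 3 = 0 ∧ f6 4 4 = -1 ∧ f6 4 5 = -1 := by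
    decide
  have e5 : f6 5 0 = 0 ∧ f6 5 1 = 1 ∧ f6 5 2 = -1 ∧ f6 5 3 = 0 ∧ f6 5 4 = 1 ∧ f6 5 5 = -1 := by
    decide
  obtain ⟨a0, a1, a2, a3, a4, a5⟩ := e0
  obtain ⟨b0, b1, b2, b3, b4, b5⟩ := e1
  obtain ⟨c0, c1, c2, c3, c4, c5⟩ := e2
  obtain ⟨d0, d1, d2, d3, d4, d5⟩ := e3
  obtain ⟨g0, g1, g2, g3, g4, g5⟩ := e4
  obtain ⟨i0, i1, i2, i3, i4, i5⟩ := e5
  rw [a0, b0, c0, d0, g0, i0] at h0
  rw [a1, b1, c1, d1, g1, i1] at h1
  rw [a2, b2, c2, d2, g2, i2] at h2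
  rw [a3, b3, c3, d3, g3, i3] at h3
  rw [a4, b4, c4, d4, g4, i4] at h4
  rw [a5, b5, c5, d5, g5, i5] at h5
  have k0 : c 0 = 0 := by omega
  have k1 : c 1 = 0 := by omega
  have k2 : c 2 = 0 := by omega
  have k3 : c 3 = 0 := by omega
  have k4 : c 4 = 0 := by omega
  have k5 : c 5 = 0 := by omega
  funext u
  fin_cases u
  · exact k0
  · exact k1
  · exact k2
  · exact k3
  · exact k4
  · exact k5

lemma ws_comb (c : Fin 6 → ℤ) {a : ℕ} {k : List ℕ} (hk : ∀ x ∈ k, 1 ≤ x) (ha : 2 ≤ a) :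
    ws (fun n => ∑ u, c u * f6 u n) a k = ∑ u, (c u : ℝ) * ws (f6 u) a k := by
  unfold ws
  have h1 : ∀ u, Summable fun m : ℕ => (c u : ℝ) *
      ((f6 u (m + 1) : ℝ) * (hr k (m + 1) / ((m + 1 : ℕ) : ℝ) ^ a)) :=
    fun u => (ws_summ (f6_le u) hk ha).mul_left _
  have h2 : ∀ u, (c u : ℝ) * ∑' m : ℕ, (f6 u (m + 1) : ℝ) *
      (hr k (m + 1) / ((m + 1 : ℕ) : ℝ) ^ a) = ∑' m : ℕ, (c u : ℝ) *
      ((f6 u (m + 1) : ℝ) * (hr k (m + 1) / ((m + 1 : ℕ) : ℝ) ^ a)) :=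
    fun u => tsum_mul_left.symm
  rw [Finset.sum_congr rfl fun u _ => h2 u, ← Summable.tsum_finsetSum fun u _ => h1 u]
  refine tsum_congr fun m => ?_
  push_cast
  rw [Finset.sum_mul]
  exact Finset.sum_congr rfl fun u _ => by ring

/-- **the main theorem, sixth roots of unity** -/
theorem main6 (r : ℕ) (κ C δ γ τ ε : ℝ) (hδ : 0 < δ) (hδε : δ < ε) (hγ : γ + δ < 1)
    (hτ : 0 < τ) (hτ1 : τ < 1) :
    ∃ N0 : ℕ, ∀ N : ℕ, N0 ≤ N → ∀ J : ℕ,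
      12 * ((J + 2 : ℕ) : ℝ) ^ (r + 1) ≤ (N : ℝ) ^ δ →
      36 * ((J + 2 : ℕ) : ℝ) ^ (2 * r + 3) ≤ (N : ℝ) ^ (1 - τ) →
      ∀ T : Finset (List ℕ), (∀ w ∈ T, Nr r J N w) → ∀ (a0 : ℤ) (c : List ℕ → Fin 6 → ℤ),
      (a0 ≠ 0 ∨ ∃ w ∈ T, ∃ u, c w u ≠ 0) →
      (∀ w ∈ T, ∀ u, |(c w u : ℝ)| ≤ (2 : ℝ) ^ ((N : ℝ) ^ γ)) →
      ∀ H : Finset (List (ℕ × ℂ)), (∀ h ∈ H, Sm κ ε N h) →
      ∀ b : List (ℕ × ℂ) → ℂ, ∑ h ∈ H, ‖b h‖ ≤ C ^ N →
      ((N : ℝ) ^ (ε * N))⁻¹ <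
        |(a0 : ℝ) + ∑ w ∈ T, ∑ u, (c w u : ℝ) * x6 u w - (∑ h ∈ H, b h * li h).re| := by
  obtain ⟨N0, h0⟩ := mainP r 4 κ (2 * |C|) δ γ τ ε hδ hδε hγ hτ hτ1
  refine ⟨max N0 3, fun N hN J hJ hJ' T hT a0 c hc hcC H hH b hb => ?_⟩
  have hN3 : 3 ≤ N := (le_max_right _ _).trans hN
  have hN0 := (le_max_left _ _).trans hN
  have hNr : (3 : ℝ) ≤ N := by exact_mod_cast hN3
  have hNp : (0 : ℝ) < N := by linarith
  have hq1 : (1 : ℝ) ≤ ((J + 2 : ℕ) : ℝ) := by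
    have : 1 ≤ J + 2 := by omega
    exact_mod_cast this
  -- the first argument is large
  have hJN : J + 2 ≤ N := by
    have h1 : ((J + 2 : ℕ) : ℝ) ≤ N := by
      calc ((J + 2 : ℕ) : ℝ) = ((J + 2 : ℕ) : ℝ) ^ 1 := (pow_one _).symm
        _ ≤ ((J + 2 : ℕ) : ℝ) ^ (2 * r + 3) := pow_le_pow_right₀ hq1 (by omega)
        _ ≤ 36 * ((J + 2 : ℕ) : ℝ) ^ (2 * r + 3) := le_mul_of_one_le_left (by positivity)
            (by norm_num)
        _ ≤ (N : ℝ) ^ (1 - τ) := hJ'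
        _ ≤ (N : ℝ) ^ (1 : ℝ) := Real.rpow_le_rpow_of_exponent_le (by linarith) (by linarith)
        _ = N := Real.rpow_one _
    exact_mod_cast h1
  have hB : (0 : ℝ) ≤ (2 : ℝ) ^ ((N : ℝ) ^ γ) := by positivity
  have h1 := h0 N hN0 6 J (by norm_num) (by
    refine le_trans (le_of_eq ?_) hJ
    push_cast
    ring) (by
    refine le_trans (le_of_eq ?_) hJ'
    push_cast
    ring) T hT (2 * a0) (fun w n => ∑ u, c w u * f6 u n) (fun w _ n => by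
      refine Finset.sum_congr rfl fun u _ => ?_
      rw [f6_per]) (by
      rcases hc with hc | ⟨w, hw, u, hc⟩
      · left
        omega
      · right
        refine ⟨w, hw, ?_⟩
        by_contra hcon
        push Not at hcon
        exact hc (congrFun (f6_ind (c w) hcon) u)) (fun w hw n => by
      push_cast
      refine (Finset.abs_sum_le_sum_abs _ _).trans ?_
      calc ∑ u, |(c w u : ℝ) * (f6 u n : ℝ)| ≤ ∑ _u : Fin 6, (2 : ℝ) ^ ((N : ℝ) ^ γ) * 2 := by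
            refine Finset.sum_le_sum fun u _ => ?_
            rw [abs_mul]
            exact mul_le_mul (hcC w hw u) (f6_le u n) (abs_nonneg _) hB
        _ = 12 * (2 : ℝ) ^ ((N : ℝ) ^ γ) := by
            rw [Finset.sum_const, Finset.card_univ, Fintype.card_fin, nsmul_eq_mul]
            push_cast
            ring
        _ ≤ _ := mul_le_mul_of_nonneg_right (by norm_num) hB) H hH (fun h => 2 * b h) (by
      simp only [norm_mul, Complex.norm_ofNat]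
      rw [← Finset.mul_sum, mul_pow]
      have e1 : (2 : ℝ) ≤ 2 ^ N := by
        calc (2 : ℝ) = 2 ^ 1 := (pow_one _).symm
          _ ≤ 2 ^ N := pow_le_pow_right₀ one_le_two (by omega)
      have e2 : ∑ h ∈ H, ‖b h‖ ≤ |C| ^ N := by
        refine hb.trans ((le_abs_self _).trans ?_)
        rw [abs_pow]
      exact mul_le_mul e1 e2 (Finset.sum_nonneg fun h _ => norm_nonneg _) (by positivity))
  have h2 : ∑ w ∈ T, wsl (fun n => ∑ u, c w u * f6 u n) w =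
      2 * ∑ w ∈ T, ∑ u, (c w u : ℝ) * x6 u w := by
    rw [Finset.mul_sum]
    refine Finset.sum_congr rfl fun w hw => ?_
    obtain ⟨a, k, rfl, e2, e3, e4, e5, e6⟩ := hT w hw
    rw [wsl, ws_comb _ e3 (by omega), Finset.mul_sum]
    refine Finset.sum_congr rfl fun u _ => ?_
    rw [← x6_eq u e3 (by omega)]
    ring
  have h3 : (∑ h ∈ H, 2 * b h * li h).re = 2 * (∑ h ∈ H, b h * li h).re := by
    have e1 : ∑ h ∈ H, 2 * b h * li h = ((2 : ℝ) : ℂ) * ∑ h ∈ H, b h * li h := by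
      rw [Finset.mul_sum]
      refine Finset.sum_congr rfl fun h _ => ?_
      push_cast
      ring
    rw [e1, Complex.re_ofReal_mul]
  rw [h2, h3] at h1
  push_cast at h1
  rw [← mul_add, ← mul_sub, abs_mul, abs_two] at h1
  linarith

/-- **many indices of one weight** -/
theorem main6W (κ C η γ ε : ℝ) (hη : 0 < η) (hηε : η < ε) (hη2 : η < 1 / 2) (hγ : γ + η < 1) :
    ∃ r N0 : ℕ, ∀ N : ℕ, N0 ≤ N → ∃ T : Finset (List ℕ), (N : ℝ) ^ η ≤ T.card ∧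
      (∀ w ∈ T, w ≠ [] ∧ w.length ≤ r + 1 ∧ (∀ x ∈ w, 1 ≤ x) ∧ w.sum = N ∧
        ∀ a ∈ w.head?, N ≤ 2 * a) ∧
      ∀ (a0 : ℤ) (c : List ℕ → Fin 6 → ℤ), (a0 ≠ 0 ∨ ∃ w ∈ T, ∃ u, c w u ≠ 0) →
      (∀ w ∈ T, ∀ u, |(c w u : ℝ)| ≤ (2 : ℝ) ^ ((N : ℝ) ^ γ)) →
      ∀ H : Finset (List (ℕ × ℂ)), (∀ h ∈ H, Sm κ ε N h) →
      ∀ b : List (ℕ × ℂ) → ℂ, ∑ h ∈ H, ‖b h‖ ≤ C ^ N →
      ((N : ℝ) ^ (ε * N))⁻¹ <
        |(a0 : ℝ) + ∑ w ∈ T, ∑ u, (c w u : ℝ) * x6 u w - (∑ h ∈ H, b h * li h).re| := by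
  classical
  obtain ⟨δ, h1, h2⟩ := exists_between (lt_min (lt_min hηε hη2) (by linarith : η < 1 - γ))
  rw [lt_min_iff, lt_min_iff] at h2
  obtain ⟨δ1, h1a, h1b⟩ := exists_between h1
  obtain ⟨r, N1, h3⟩ := count_large η δ1 hη h1a (by linarith [h2.1.2])
  obtain ⟨N2, h4⟩ := main6 r κ C δ γ (1 - 2 * δ) ε (hη.trans h1) h2.1.1 (by linarith [h2.2])
    (by linarith [h2.1.2]) (by linarith [hη.trans h1])
  obtain ⟨N3, h3'⟩ := rpow_large (e := δ - δ1) (by linarith) 6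
  refine ⟨r, max (max N1 N2) (max N3 1), fun N hN => ?_⟩
  have hNN3 := h3' N ((le_max_left _ _).trans ((le_max_right _ _).trans hN))
  have hN1 : 1 ≤ N := (le_max_right _ _).trans ((le_max_right _ _).trans hN)
  obtain ⟨J, h5, h6, h7⟩ := h3 N ((le_max_left _ _).trans ((le_max_left _ _).trans hN))
  obtain ⟨L, h8, h9⟩ := count_words r J
  have hNr : (1 : ℝ) ≤ N := by exact_mod_cast hN1
  have hNp : (0 : ℝ) < N := by linarith
  have h6' : 6 * ((J + 2 : ℕ) : ℝ) ^ (r + 2) ≤ (N : ℝ) ^ δ := by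
    have e1 : (N : ℝ) ^ δ = (N : ℝ) ^ (δ - δ1) * (N : ℝ) ^ δ1 := by
      rw [← Real.rpow_add hNp]
      congr 1
      ring
    rw [e1]
    exact mul_le_mul hNN3 h6 (by positivity) (by positivity)
  have hsub : ∀ k ∈ L, N - k.sum + k.sum = N ∧ N ≤ 2 * (N - k.sum) ∧ N ≤ N - k.sum + J := by
    intro k hk
    have := (h9 k hk).2.2
    omega
  set T : Finset (List ℕ) := L.image fun k => (N - k.sum) :: k with hT
  have hcard : T.card = L.card := by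
    refine Finset.card_image_of_injective _ fun k k' h => ?_
    simp only [List.cons.injEq] at h
    exact h.2
  refine ⟨T, ?_, fun w hw => ?_, ?_⟩
  · rw [hcard]
    refine h7.trans ?_
    exact_mod_cast h8
  · obtain ⟨k, hk, rfl⟩ := Finset.mem_image.1 hw
    obtain ⟨e1, e2, e3⟩ := h9 k hk
    obtain ⟨e4, e5, e6⟩ := hsub k hk
    refine ⟨List.cons_ne_nil _ _, by
      rw [List.length_cons]
      omega, fun x hx => ?_, by rw [List.sum_cons, e4], fun a ha => ?_⟩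
    · rcases List.mem_cons.1 hx with rfl | hx
      · omega
      · exact e2 x hx
    · rw [List.head?_cons, Option.mem_def, Option.some_inj] at ha
      rw [← ha]
      exact e5
  · intro a0 c
    have hJ2 : (2 : ℝ) ≤ ((J + 2 : ℕ) : ℝ) := by
      have : 2 ≤ J + 2 := by omega
      exact_mod_cast this
    have hJ0 : (0 : ℝ) < ((J + 2 : ℕ) : ℝ) ^ (r + 1) := by positivity
    refine h4 N ((le_max_right _ _).trans ((le_max_left _ _).trans hN)) J (le_trans ?_ h6') ?_ T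
      (fun w hw => ?_) a0 c
    · rw [pow_succ _ (r + 1)]
      nlinarith
    · have h10 : (N : ℝ) ^ (1 - (1 - 2 * δ)) = ((N : ℝ) ^ δ) ^ 2 := by
        rw [← Real.rpow_natCast, ← Real.rpow_mul (Nat.cast_nonneg _)]
        congr 1
        push_cast
        ring
      rw [h10]
      calc 36 * ((J + 2 : ℕ) : ℝ) ^ (2 * r + 3) ≤ 36 * ((J + 2 : ℕ) : ℝ) ^ ((r + 2) * 2) := by
            refine mul_le_mul_of_nonneg_left ?_ (by norm_num)
            exact pow_le_pow_right₀ (by linarith) (by omega)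
        _ = (6 * ((J + 2 : ℕ) : ℝ) ^ (r + 2)) ^ 2 := by rw [pow_mul, mul_pow]; norm_num
        _ ≤ _ := pow_le_pow_left₀ (by positivity) h6' _
    obtain ⟨k, hk, rfl⟩ := Finset.mem_image.1 hw
    obtain ⟨e1, e2, e3⟩ := h9 k hk
    obtain ⟨e4, e5, e6⟩ := hsub k hk
    exact ⟨N - k.sum, k, rfl, e1, e2, e3, e6, by omega⟩

end Pool.Agent.V8H86.GC
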