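import Pool.Agent.V8H86.GC.B

/-!
# Combinations of weighted multiple zeta values whose number of terms grows (helper86)

The estimates follow `Pool.Agent.R404.MZ.Asy` by helper404.
-/

set_option autoImplicit false

namespace Pool.Agent.V8H86.GC

open Finset Filter Topology
open Pool.Agent.Y760.ZG (hr mz)
open Pool.Agent.Y777.AM (ht mz_nonneg)
open Pool.Agent.R404.MZ

lemma evA' (δ γ τ B : ℝ) (hδ : 0 < δ) (hγ : γ + δ < 1) (hτ : 0 < τ) (hB : 0 ≤ B) :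
    ∃ N0 : ℕ, ∀ N : ℕ, N0 ≤ N →
      (B + 8 * (δ * Real.log N / Real.log 2)) * (N : ℝ) ^ (1 - τ) + (N : ℝ) ^ (δ + γ) ≤ N := by
  set θ : ℝ := max (1 - τ / 2) (δ + γ) with hθ
  have hθ1 : θ < 1 := by
    rw [hθ]
    exact max_lt (by linarith) (by linarith)
  have hl2 : 0 < Real.log 2 := Real.log_pos (by norm_num)
  set A0 : ℝ := (B + 1) + 8 * (δ / (τ / 2 * Real.log 2)) with hA0
  obtain ⟨N0, hN0⟩ := rpow_large (e := 1 - θ) (by linarith) A0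
  refine ⟨max N0 1, fun N hN => ?_⟩
  have hN1 : (1 : ℝ) ≤ N := by exact_mod_cast (le_max_right _ _).trans hN
  have hNp : (0 : ℝ) < N := by linarith
  have h1 := hN0 N ((le_max_left _ _).trans hN)
  have hX : (N : ℝ) ^ (1 - τ) ≤ (N : ℝ) ^ θ := by
    refine Real.rpow_le_rpow_of_exponent_le hN1 ?_
    have := le_max_left (1 - τ / 2) (δ + γ)
    rw [hθ]
    linarith
  have hY : (N : ℝ) ^ (δ + γ) ≤ (N : ℝ) ^ θ := Real.rpow_le_rpow_of_exponent_le hN1 (le_max_right _ _)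
  have hlog : Real.log N ≤ (N : ℝ) ^ (τ / 2) / (τ / 2) := Real.log_le_rpow_div hNp.le (by linarith)
  have h2 : (N : ℝ) ^ (1 - τ) * (δ * Real.log N / Real.log 2) ≤
      (δ / (τ / 2 * Real.log 2)) * (N : ℝ) ^ θ := by
    have h3 : (N : ℝ) ^ (1 - τ) * (N : ℝ) ^ (τ / 2) ≤ (N : ℝ) ^ θ := by
      rw [← Real.rpow_add hNp]
      refine Real.rpow_le_rpow_of_exponent_le hN1 ?_
      have := le_max_left (1 - τ / 2) (δ + γ)
      rw [hθ]
      linarith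
    calc (N : ℝ) ^ (1 - τ) * (δ * Real.log N / Real.log 2)
        ≤ (N : ℝ) ^ (1 - τ) * (δ * ((N : ℝ) ^ (τ / 2) / (τ / 2)) / Real.log 2) := by
          gcongr
      _ = (δ / (τ / 2 * Real.log 2)) * ((N : ℝ) ^ (1 - τ) * (N : ℝ) ^ (τ / 2)) := by field_simp
      _ ≤ _ := mul_le_mul_of_nonneg_left h3 (by positivity)
  have h4 : (N : ℝ) = (N : ℝ) ^ (1 - θ) * (N : ℝ) ^ θ := by
    rw [← Real.rpow_add hNp]
    simp
  have hXB : B * (N : ℝ) ^ (1 - τ) ≤ B * (N : ℝ) ^ θ := mul_le_mul_of_nonneg_left hX hB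
  calc (B + 8 * (δ * Real.log N / Real.log 2)) * (N : ℝ) ^ (1 - τ) + (N : ℝ) ^ (δ + γ)
      = B * (N : ℝ) ^ (1 - τ) + 8 * ((N : ℝ) ^ (1 - τ) * (δ * Real.log N / Real.log 2)) +
        (N : ℝ) ^ (δ + γ) := by ring
    _ ≤ B * (N : ℝ) ^ θ + 8 * ((δ / (τ / 2 * Real.log 2)) * (N : ℝ) ^ θ) + (N : ℝ) ^ θ := by
        linarith
    _ = A0 * (N : ℝ) ^ θ := by rw [hA0]; ring
    _ ≤ (N : ℝ) ^ (1 - θ) * (N : ℝ) ^ θ := mul_le_mul_of_nonneg_right h1 (by positivity)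
    _ = N := h4.symm

/-- **the combination of few terms** -/
theorem asyP (r e : ℕ) (δ δ' γ τ : ℝ) (hδ : 0 < δ) (hδδ : δ < δ') (hγ : γ + δ < 1) (hτ : 0 < τ)
    (hτ1 : τ < 1) :
    ∃ N0 : ℕ, ∀ N : ℕ, N0 ≤ N → ∀ m J : ℕ, 1 ≤ m →
      2 * (m : ℝ) * ((J + 2 : ℕ) : ℝ) ^ (r + 1) ≤ (N : ℝ) ^ δ →
      (m : ℝ) ^ 2 * ((J + 2 : ℕ) : ℝ) ^ (2 * r + 3) ≤ (N : ℝ) ^ (1 - τ) →
      ∀ (ι : Type) [Fintype ι] (a : ι → ℕ) (k : ι → List ℕ) (F : ι → ℕ → ℤ) (a0 : ℤ),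
      (∀ j, (k j).length ≤ r ∧ (∀ x ∈ k j, 1 ≤ x) ∧ (k j).sum ≤ J) →
      (∀ j, N ≤ a j + J ∧ a j ≤ N + J) → (Function.Injective fun j => (a j, k j)) →
      (∀ j n, F j (n + m) = F j n) → (a0 ≠ 0 ∨ ∃ j n, F j n ≠ 0) →
      (∀ j n, |(F j n : ℝ)| ≤ 2 ^ e * (2 : ℝ) ^ ((N : ℝ) ^ γ)) →
      4 * ((N : ℝ) ^ (δ' * N))⁻¹ ≤ |(a0 : ℝ) + ∑ j, ws (F j) (a j) (k j)| := by
  obtain ⟨N1, h1⟩ := evA' δ γ τ (21 + 2 * e) hδ hγ hτ (by positivity)
  obtain ⟨N2, h2⟩ := evB (1 - τ) (3 * δ) (δ' - δ) (by linarith) (by linarith) (by linarith)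
  refine ⟨max (max N1 N2) 8, fun N hN m J hm hJ hJ' ι _ a k F a0 hk ha hinj hper hc hFC => ?_⟩
  have hN1 := h1 N ((le_max_left _ _).trans ((le_max_left _ _).trans hN))
  have hN2 := h2 N ((le_max_right _ _).trans ((le_max_left _ _).trans hN))
  have hN8 : 8 ≤ N := (le_max_right _ _).trans hN
  have hNr : (8 : ℝ) ≤ N := by exact_mod_cast hN8
  have hNp : (0 : ℝ) < N := by linarith
  have hl2 : 0 < Real.log 2 := Real.log_pos (by norm_num)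
  have hlN : 0 ≤ Real.log N := Real.log_nonneg (by linarith)
  set X : ℝ := (N : ℝ) ^ δ with hX
  have hX1 : 1 ≤ X := Real.one_le_rpow (by linarith) hδ.le
  set P : ℝ := (N : ℝ) ^ (1 - τ) with hP
  set L : ℝ := δ * Real.log N / Real.log 2 with hL
  have hL0 : 0 ≤ L := by positivity
  set K : ℕ := (m + 1) + m * ((2 * J + 1) * (J + 2) ^ r) with hK
  have hJ1 : 1 ≤ (J + 2) ^ r := Nat.one_le_iff_ne_zero.2 (by positivity)
  have hmJ : m ≤ m * (J + 2) ^ r := Nat.le_mul_of_pos_right _ (by positivity)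
  have hK2 : 2 ≤ K := by rw [hK]; omega
  have hK1 : K ≤ 2 * m * (J + 2) ^ (r + 1) := by
    rw [hK, pow_succ]
    nlinarith
  have hm1 : (1 : ℝ) ≤ m := by exact_mod_cast hm
  have hm0 : (0 : ℝ) < m := by linarith
  have hK1r : (K : ℝ) ≤ 2 * m * ((J + 2 : ℕ) : ℝ) ^ (r + 1) := by exact_mod_cast hK1
  have hKX : (K : ℝ) ≤ X := hK1r.trans hJ
  have hJ21 : (1 : ℝ) ≤ ((J + 2 : ℕ) : ℝ) := by
    have : 1 ≤ J + 2 := by omega
    exact_mod_cast this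
  have hJr : (J : ℝ) + 2 = ((J + 2 : ℕ) : ℝ) := by push_cast; rfl
  set q : ℝ := ((J + 2 : ℕ) : ℝ) with hq
  have hJ0 : (0 : ℝ) ≤ J := Nat.cast_nonneg J
  have hmm : (m : ℝ) ≤ (m : ℝ) ^ 2 := by nlinarith
  have hq3 : (m : ℝ) * q ^ (2 * r + 3) ≤ P :=
    (mul_le_mul_of_nonneg_right hmm (by positivity)).trans hJ'
  have hq2 : (m : ℝ) * q ^ (r + 2) ≤ P :=
    (mul_le_mul_of_nonneg_left (pow_le_pow_right₀ hJ21 (by omega)) hm0.le).trans hq3
  have hq1 : (m : ℝ) * q ^ (r + 1) ≤ P :=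
    (mul_le_mul_of_nonneg_left (pow_le_pow_right₀ hJ21 (by omega)) hm0.le).trans hq3
  have hq0 : q ≤ P := by
    calc q = q ^ 1 := (pow_one _).symm
      _ ≤ q ^ (2 * r + 3) := pow_le_pow_right₀ hJ21 (by omega)
      _ ≤ m * q ^ (2 * r + 3) := le_mul_of_one_le_left (by positivity) hm1
      _ ≤ P := hq3
  have hK0 : (0 : ℝ) ≤ K := Nat.cast_nonneg K
  have hJK : (J : ℝ) * K ≤ 2 * (m * q ^ (r + 2)) := by
    calc (J : ℝ) * K ≤ q * (2 * m * q ^ (r + 1)) := mul_le_mul (by linarith) hK1r hK0 (by linarith)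
      _ = _ := by rw [pow_succ _ (r + 1)]; ring
  have hqK : q * K ≤ 2 * (m * q ^ (r + 2)) := by
    calc q * K ≤ q * (2 * m * q ^ (r + 1)) := mul_le_mul_of_nonneg_left hK1r (by linarith)
      _ = _ := by rw [pow_succ _ (r + 1)]; ring
  have hJKK : (K : ℝ) * (J * K) ≤ 4 * P := by
    calc (K : ℝ) * (J * K) ≤ (2 * m * q ^ (r + 1)) * (2 * (m * q ^ (r + 2))) :=
          mul_le_mul hK1r hJK (by positivity) (by positivity)
      _ = 4 * (m ^ 2 * q ^ (2 * r + 3)) := by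
          rw [show 2 * r + 3 = (r + 1) + (r + 2) by ring, pow_add]
          ring
      _ ≤ 4 * P := by linarith
  have hKγ : (K : ℝ) * (N : ℝ) ^ γ ≤ (N : ℝ) ^ (δ + γ) := by
    rw [Real.rpow_add hNp]
    exact mul_le_mul_of_nonneg_right hKX (Real.rpow_nonneg hNp.le _)
  have hmain0 : (K : ℝ) * (3 + e + 3 * J + (N : ℝ) ^ γ + (2 * J + 3 + J * K) * (1 + L)) + J ≤
      N := by
    have hKP : (K : ℝ) ≤ 2 * P := by linarith
    have e1 : (K : ℝ) * (3 + e) ≤ (6 + 2 * e) * P := by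
      calc (K : ℝ) * (3 + e) ≤ (2 * P) * (3 + e) :=
            mul_le_mul_of_nonneg_right hKP (by positivity)
        _ = _ := by ring
    have e2 : (K : ℝ) * (3 * J) ≤ 6 * P := by linarith
    have e3 : (K : ℝ) * (2 * J + 3 + J * K) ≤ 8 * P := by
      have e4 : (K : ℝ) * (2 * J + 3) ≤ 4 * P := by
        calc (K : ℝ) * (2 * J + 3) ≤ 2 * (q * K) := by nlinarith
          _ ≤ 4 * P := by linarith
      linarith
    have e5 : (K : ℝ) * ((2 * J + 3 + J * K) * (1 + L)) ≤ 8 * P * (1 + L) := by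
      rw [← mul_assoc]
      exact mul_le_mul_of_nonneg_right e3 (by linarith)
    have e6 : (21 + 2 * (e : ℝ) + 8 * L) * P = (13 + 2 * e) * P + 8 * P * (1 + L) := by ring
    linarith
  have hJN : J ≤ N := by
    have h3 : (J : ℝ) ≤ N := by
      have e1 : 0 ≤ (K : ℝ) * (3 + e + 3 * J + (N : ℝ) ^ γ + (2 * J + 3 + J * K) * (1 + L)) := by
        positivity
      linarith
    exact_mod_cast h3
  have hcard := card_T N J a k (fun j => ⟨(hk j).2.1, (hk j).2.2⟩) ha hinj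
  set Cs : ℝ := 8 ^ J * (2 ^ e * (2 : ℝ) ^ ((N : ℝ) ^ γ)) with hCs
  have hCs1 : 1 ≤ Cs := by
    refine one_le_mul_of_one_le_of_one_le (one_le_pow₀ (by norm_num)) ?_
    refine one_le_mul_of_one_le_of_one_le (one_le_pow₀ (by norm_num)) ?_
    exact Real.one_le_rpow (by norm_num) (Real.rpow_nonneg hNp.le _)
  have hCsum : (Fintype.card ι : ℝ) * (2 ^ e * (2 : ℝ) ^ ((N : ℝ) ^ γ)) ≤ Cs := by
    refine mul_le_mul_of_nonneg_right ?_ (by positivity)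
    exact_mod_cast hcard
  have hKr2 : (2 : ℝ) ≤ K := by exact_mod_cast hK2
  have hM3 : 3 ≤ N - J := by
    have h3 : ((J : ℝ) + 3) ≤ N := by
      have e1 : 0 ≤ (K : ℝ) * (e + 3 * J + (N : ℝ) ^ γ + (2 * J + 3 + J * K) * (1 + L)) := by
        positivity
      nlinarith
    have h4 : J + 3 ≤ N := by exact_mod_cast h3
    omega
  have hcond : 4 * Cs * ((K : ℝ) + 1) ^ (2 * J + 3 + J * K) ≤ 2 ^ ((N - J) / K) := by
    have hy2 : (2 : ℝ) ^ (1 + L) = 2 * X := by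
      rw [Real.rpow_add two_pos, Real.rpow_one, hX]
      congr 1
      rw [Real.rpow_def_of_pos two_pos, Real.rpow_def_of_pos hNp, hL]
      congr 1
      field_simp
    have h3 : ((K : ℝ) + 1) ≤ (2 : ℝ) ^ (1 + L) := by
      rw [hy2]
      linarith
    have h4 : ((K : ℝ) + 1) ^ (2 * J + 3 + J * K) ≤ (2 : ℝ) ^ ((2 * J + 3 + J * K) * (1 + L)) := by
      refine (pow_le_pow_left₀ (by linarith) h3 _).trans ?_
      rw [← Real.rpow_natCast, ← Real.rpow_mul two_pos.le]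
      refine Real.rpow_le_rpow_of_exponent_le one_le_two (le_of_eq ?_)
      push_cast
      ring
    have h5 : 4 * Cs ≤ (2 : ℝ) ^ (2 + e + 3 * J + (N : ℝ) ^ γ) := by
      rw [hCs, Real.rpow_add two_pos, Real.rpow_add two_pos, Real.rpow_add two_pos]
      have h6 : (8 : ℝ) ^ J = 2 ^ (3 * (J : ℝ)) := by
        rw [Real.rpow_mul two_pos.le, Real.rpow_natCast]
        norm_num
      have h8 : (2 : ℝ) ^ (2 : ℝ) = 4 := by
        norm_num
      rw [h8, h6, Real.rpow_natCast]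
      refine le_of_eq ?_
      ring
    have h6 : (2 : ℝ) ^ (2 + e + 3 * J + (N : ℝ) ^ γ + (2 * J + 3 + J * K) * (1 + L)) ≤
        2 ^ ((N - J) / K) := by
      rw [← Real.rpow_natCast 2 ((N - J) / K)]
      refine Real.rpow_le_rpow_of_exponent_le one_le_two ?_
      have h7 : ((N - J : ℕ) : ℝ) < (K : ℝ) * ((((N - J) / K : ℕ) : ℝ) + 1) := by
        have h8 := Nat.lt_mul_div_succ (N - J) (by omega : 0 < K)
        exact_mod_cast h8
      rw [Nat.cast_sub hJN] at h7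
      have h10 : (K : ℝ) * (3 + e + 3 * J + (N : ℝ) ^ γ + (2 * J + 3 + J * K) * (1 + L)) ≤
          (K : ℝ) * ((((N - J) / K : ℕ) : ℝ) + 1) := by linarith
      have h12 := le_of_mul_le_mul_left h10 (by linarith)
      linarith
    refine le_trans ?_ h6
    calc 4 * Cs * ((K : ℝ) + 1) ^ (2 * J + 3 + J * K)
        ≤ (2 : ℝ) ^ (2 + e + 3 * J + (N : ℝ) ^ γ) * (2 : ℝ) ^ ((2 * J + 3 + J * K) * (1 + L)) := by
          refine mul_le_mul h5 h4 (by positivity) (by positivity)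
      _ = _ := by rw [← Real.rpow_add two_pos]
  have hmain := explP (N - J) (2 * J) J r K m hm a k F a0 hk (fun j => by
    have := ha j
    omega) hinj hper hc (by rw [hK]) hM3 _ Cs hCs1 hFC hCsum hcond
  refine le_trans ?_ hmain
  have hexp : N - J + 2 * J + J * K = N + J + J * K := by omega
  rw [hexp]
  have h3 : (K : ℝ) ^ (N + J + J * K) ≤ (N : ℝ) ^ (δ * (N + 3 * P)) := by
    calc (K : ℝ) ^ (N + J + J * K) ≤ X ^ (N + J + J * K) := pow_le_pow_left₀ (by linarith) hKX _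
      _ = X ^ (((N + J + J * K : ℕ) : ℝ)) := (Real.rpow_natCast _ _).symm
      _ ≤ X ^ ((N : ℝ) + 3 * P) := by
          refine Real.rpow_le_rpow_of_exponent_le hX1 ?_
          push_cast
          linarith
      _ = _ := by rw [hX, ← Real.rpow_mul hNp.le]
  have h4 : 8 * (K : ℝ) ^ (N + J + J * K) ≤ (N : ℝ) ^ (δ' * N) := by
    calc 8 * (K : ℝ) ^ (N + J + J * K) ≤ (N : ℝ) ^ (2 : ℝ) * (N : ℝ) ^ (δ * (N + 3 * P)) := by
          refine mul_le_mul ?_ h3 (by positivity) (by positivity)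
          rw [Real.rpow_two]
          nlinarith
      _ = (N : ℝ) ^ (2 + δ * (N + 3 * P)) := by rw [← Real.rpow_add hNp]
      _ ≤ _ := by
          refine Real.rpow_le_rpow_of_exponent_le (by linarith) ?_
          nlinarith
  have h5 : 0 < (K : ℝ) ^ (N + J + J * K) := by positivity
  calc 4 * ((N : ℝ) ^ (δ' * N))⁻¹ ≤ 4 * (8 * (K : ℝ) ^ (N + J + J * K))⁻¹ := by
        refine mul_le_mul_of_nonneg_left ?_ (by norm_num)
        exact inv_anti₀ (by positivity) h4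
    _ = (2 * (K : ℝ) ^ (N + J + J * K))⁻¹ := by
        rw [mul_inv, mul_inv]
        ring

/-- **the combination of the small values** -/
theorem asyH' (κ C δ' ε : ℝ) (hδ' : 0 < δ') (hε : δ' < ε) :
    ∃ N0 : ℕ, ∀ N : ℕ, N0 ≤ N → ∀ H : Finset (List (ℕ × ℂ)),
      (∀ h ∈ H, (∀ x ∈ h, 1 ≤ x.1 ∧ ‖x.2‖ ≤ 1) ∧ (∀ x ∈ h.head?, 2 ≤ x.1) ∧
        ((h.map Prod.fst).sum : ℝ) ≤ κ * N ∧ ε * N ≤ ht (h.map Prod.fst)) →
      ∀ b : List (ℕ × ℂ) → ℂ, ∑ h ∈ H, ‖b h‖ ≤ C ^ N →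
      ‖∑ h ∈ H, b h * li h‖ ≤ ((N : ℝ) ^ (δ' * N))⁻¹ := by
  classical
  obtain ⟨N0, h0⟩ := asyH κ C δ' ε hδ' hε
  refine ⟨N0, fun N hN H hH b hb => ?_⟩
  set H' : Finset (List ℕ) := H.image (List.map Prod.fst) with hH'
  set b' : List ℕ → ℝ := fun w => ∑ h ∈ H with List.map Prod.fst h = w, ‖b h‖ with hb'
  have h1 := h0 N hN H' (fun w hw => by
    obtain ⟨h, hh, rfl⟩ := Finset.mem_image.1 hw
    obtain ⟨e1, e2, e3, e4⟩ := hH h hh
    refine ⟨fun m hm => ?_, fun x hx => ?_, e3, e4⟩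
    · obtain ⟨y, hy, rfl⟩ := List.mem_map.1 hm
      exact (e1 y hy).1
    · rw [List.head?_map, Option.mem_map] at hx
      obtain ⟨y, hy, rfl⟩ := hx
      exact e2 y hy) b' (fun w _ => by
    rw [abs_of_nonneg (Finset.sum_nonneg fun h _ => norm_nonneg _)]
    exact (Finset.sum_le_sum_of_subset_of_nonneg (Finset.filter_subset _ _)
      fun h _ _ => norm_nonneg _).trans hb)
  have h2 : ∑ w ∈ H', b' w * mz w = ∑ h ∈ H, ‖b h‖ * mz (h.map Prod.fst) := by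
    rw [← Finset.sum_fiberwise_of_maps_to (g := List.map Prod.fst) (t := H')
      (fun h hh => Finset.mem_image_of_mem _ hh)]
    refine Finset.sum_congr rfl fun w _ => ?_
    rw [hb']
    simp only
    rw [Finset.sum_mul]
    refine Finset.sum_congr rfl fun h hh => ?_
    rw [(Finset.mem_filter.1 hh).2]
  rw [h2, abs_of_nonneg (Finset.sum_nonneg fun h _ => mul_nonneg (norm_nonneg _)
    (mz_nonneg _))] at h1
  refine le_trans ((norm_sum_le _ _).trans (Finset.sum_le_sum fun h hh => ?_)) h1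
  rw [norm_mul]
  exact mul_le_mul_of_nonneg_left (li_le (hH h hh).1 (hH h hh).2.1) (norm_nonneg _)

/-- the value of a word -/
noncomputable def wsl (v : ℕ → ℤ) : List ℕ → ℝ
  | [] => 0
  | a :: k => ws v a k

/-- the admissible small values -/
def Sm (κ ε : ℝ) (N : ℕ) (h : List (ℕ × ℂ)) : Prop :=
  (∀ x ∈ h, 1 ≤ x.1 ∧ ‖x.2‖ ≤ 1) ∧ (∀ x ∈ h.head?, 2 ≤ x.1) ∧
    ((h.map Prod.fst).sum : ℝ) ≤ κ * N ∧ ε * N ≤ ht (h.map Prod.fst)

/-- **the main theorem, periodic functions** -/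
theorem mainP (r e : ℕ) (κ C δ γ τ ε : ℝ) (hδ : 0 < δ) (hδε : δ < ε) (hγ : γ + δ < 1)
    (hτ : 0 < τ) (hτ1 : τ < 1) :
    ∃ N0 : ℕ, ∀ N : ℕ, N0 ≤ N → ∀ m J : ℕ, 1 ≤ m →
      2 * (m : ℝ) * ((J + 2 : ℕ) : ℝ) ^ (r + 1) ≤ (N : ℝ) ^ δ →
      (m : ℝ) ^ 2 * ((J + 2 : ℕ) : ℝ) ^ (2 * r + 3) ≤ (N : ℝ) ^ (1 - τ) →
      ∀ T : Finset (List ℕ), (∀ w ∈ T, Nr r J N w) → ∀ (a0 : ℤ) (F : List ℕ → ℕ → ℤ),
      (∀ w ∈ T, ∀ n, F w (n + m) = F w n) → (a0 ≠ 0 ∨ ∃ w ∈ T, ∃ n, F w n ≠ 0) →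
      (∀ w ∈ T, ∀ n, |(F w n : ℝ)| ≤ 2 ^ e * (2 : ℝ) ^ ((N : ℝ) ^ γ)) →
      ∀ H : Finset (List (ℕ × ℂ)), (∀ h ∈ H, Sm κ ε N h) →
      ∀ b : List (ℕ × ℂ) → ℂ, ∑ h ∈ H, ‖b h‖ ≤ C ^ N →
      2 * ((N : ℝ) ^ (ε * N))⁻¹ <
        |(a0 : ℝ) + ∑ w ∈ T, wsl (F w) w - (∑ h ∈ H, b h * li h).re| := by
  obtain ⟨N1, h1⟩ := asyP r e δ ((δ + ε) / 2) γ τ hδ (by linarith) hγ hτ hτ1
  obtain ⟨N2, h2⟩ := asyH' κ C ((δ + ε) / 2) ε (by linarith) (by linarith)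
  refine ⟨max (max N1 N2) 2,
    fun N hN m J hm hJ hJ' T hT a0 F hper hc hFC H hH b hb => ?_⟩
  have h3 := h1 N ((le_max_left _ _).trans ((le_max_left _ _).trans hN)) m J hm hJ hJ' T
    (fun w => (w : List ℕ).headI) (fun w => (w : List ℕ).tail) (fun w => F w) a0
    (fun w => by
      obtain ⟨a, k, h1, h2, h3, h4, h5, h6⟩ := hT w w.2
      rw [h1]
      exact ⟨h2, h3, h4⟩) (fun w => by
      obtain ⟨a, k, h1, h2, h3, h4, h5, h6⟩ := hT w w.2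
      rw [h1]
      exact ⟨h5, h6⟩) (inj_Nr hT) (fun w => hper w w.2) (by
      rcases hc with hc | ⟨w, hw, n, hc⟩
      · exact Or.inl hc
      · exact Or.inr ⟨⟨w, hw⟩, n, hc⟩) (fun w => hFC w w.2)
  have h3' : ∑ w : T, ws (F w) (w : List ℕ).headI (w : List ℕ).tail =
      ∑ w ∈ T, wsl (F w) w := by
    rw [← Finset.sum_coe_sort T fun w => wsl (F w) w]
    refine Finset.sum_congr rfl fun w _ => ?_
    have := (hT w w.2).eq
    show _ = wsl (F w) (w : List ℕ)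
    conv_rhs => rw [this, wsl]
    rw [← this]
  rw [h3'] at h3
  have h4 := h2 N ((le_max_right _ _).trans ((le_max_left _ _).trans hN)) H hH b hb
  have h4' := (Complex.abs_re_le_norm (∑ h ∈ H, b h * li h)).trans h4
  have hN2 : (2 : ℝ) ≤ N := by exact_mod_cast (le_max_right _ _).trans hN
  have hP : 0 < (N : ℝ) ^ ((δ + ε) / 2 * N) := Real.rpow_pos_of_pos (by linarith) _
  have h5 : ((N : ℝ) ^ (ε * N))⁻¹ < ((N : ℝ) ^ ((δ + ε) / 2 * N))⁻¹ := by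
    refine inv_strictAnti₀ hP ?_
    refine Real.rpow_lt_rpow_of_exponent_lt (by linarith) ?_
    nlinarith
  have h6 := abs_sub_abs_le_abs_sub ((a0 : ℝ) + ∑ w ∈ T, wsl (F w) w) (∑ h ∈ H, b h * li h).re
  have h7 : 0 < ((N : ℝ) ^ ((δ + ε) / 2 * N))⁻¹ := by positivity
  linarith

end Pool.Agent.V8H86.GC
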