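import Pool.Agent.R404.MZ.Arith

/-!
# A lower bound for sums of series with small denominators (helper86)

The proof follows `Pool.Agent.R404.MZ.explicit` by helper404.
-/

set_option autoImplicit false

namespace Pool.Agent.V8H86.GC

open Finset
open Pool.Agent.Y760.ZG (hr hr_nil hr_cons mz tl tail_bd tail_sum tail_split ze)
open Pool.Agent.R404.MZ

/-- **the abstract lower bound** -/
theorem expl (M D J K : ℕ) (G : ℕ → ℝ) (a0 : ℤ) (hK2 : 2 ≤ K) (hM : 3 ≤ M) (Cs : ℝ)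
    (hCs : 1 ≤ Cs) (hbd : ∀ m : ℕ, 1 ≤ m → |G m| ≤ Cs * (m : ℝ) ^ 1 * ((m : ℝ) ^ M)⁻¹)
    (hint : ∀ m : ℕ, 1 ≤ m → ∃ z : ℤ,
      (m : ℝ) ^ (M + D) * (((m - 1).factorial : ℕ) : ℝ) ^ J * G m = z)
    (hnz : (a0 : ℝ) + G 1 ≠ 0 ∨ ∃ m : ℕ, 2 ≤ m ∧ m ≤ K ∧ G m ≠ 0)
    (hcond : 4 * Cs * ((K : ℝ) + 1) ^ (D + 3 + J * K) ≤ 2 ^ (M / K)) :
    (2 * (K : ℝ) ^ (M + D + J * K))⁻¹ ≤ |(a0 : ℝ) + tl G 1| := by
  classical
  have hKr : (2 : ℝ) ≤ K := by exact_mod_cast hK2
  have hCs0 : 0 ≤ Cs := zero_le_one.trans hCs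
  have hsum := tail_sum (f := G) hCs0 (A := 1) (σ := M) hM hbd (k := 1) le_rfl
  have hsplit : ∀ m, 1 ≤ m → tl G 1 = ∑ i ∈ Finset.Ico 1 m, G i + tl G m := by
    intro m hm
    rw [tail_split hsum hm]
    ring
  have hG1 : ∃ z : ℤ, G 1 = z := by
    obtain ⟨z, hz⟩ := hint 1 le_rfl
    exact ⟨z, by rw [← hz]; simp⟩
  obtain ⟨z1, hz1⟩ := hG1
  have htl : ∀ m, 1 ≤ m → |tl G m| ≤ 2 * Cs * (m : ℝ) ^ 3 * ((m : ℝ) ^ M)⁻¹ := by
    intro m hm
    refine (tail_bd (f := G) hCs0 (A := 1) (σ := M) hM hbd hm).trans ?_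
    have h1 := ze2_le
    have h2 : 0 ≤ (m : ℝ) ^ 3 * ((m : ℝ) ^ M)⁻¹ := by positivity
    have h3 : Cs * ze 2 ≤ 2 * Cs := by nlinarith
    calc Cs * ze 2 * (m : ℝ) ^ (1 + 2) * ((m : ℝ) ^ M)⁻¹
        = (Cs * ze 2) * ((m : ℝ) ^ 3 * ((m : ℝ) ^ M)⁻¹) := by ring
      _ ≤ (2 * Cs) * ((m : ℝ) ^ 3 * ((m : ℝ) ^ M)⁻¹) := mul_le_mul_of_nonneg_right h3 h2
      _ = _ := by ring
  have hcond1 : 4 * Cs * ((K : ℝ) + 1) ^ (D + 3) ≤ 2 ^ (M / K) := by
    refine le_trans ?_ hcond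
    refine mul_le_mul_of_nonneg_left ?_ (by positivity)
    exact pow_le_pow_right₀ (by linarith) (Nat.le_add_right _ _)
  by_cases hP : (a0 : ℝ) + G 1 = 0
  · -- the second case
    have hex : ∃ m, 2 ≤ m ∧ m ≤ K ∧ G m ≠ 0 := by
      rcases hnz with h | h
      · exact absurd hP h
      · exact h
    have hfind := Nat.find_spec hex
    set m := Nat.find hex with hm
    have hmin : ∀ i, 2 ≤ i → i < m → G i = 0 := by
      intro i h1 h2
      by_contra h3
      exact Nat.find_min hex h2 ⟨h1, by omega, h3⟩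
    obtain ⟨hm2, hmK, hmG⟩ := hfind
    have h1 : tl G 1 = G 1 + G m + tl G (m + 1) := by
      rw [hsplit (m + 1) (by omega)]
      congr 1
      rw [Finset.sum_Ico_succ_top (by omega), Finset.sum_eq_sum_Ico_succ_bot (by omega),
        Finset.sum_eq_zero fun i hi => ?_]
      · ring
      · rw [Finset.mem_Ico] at hi
        exact hmin i (by omega) hi.2
    have h2 : (a0 : ℝ) + tl G 1 = G m + tl G (m + 1) := by
      rw [h1]
      linarith
    rw [h2]
    obtain ⟨z, hz⟩ := hint m (by omega)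
    have hm0 : (0 : ℝ) < m := by exact_mod_cast (by omega : 0 < m)
    have hF0 : (0 : ℝ) < ((m - 1).factorial : ℝ) := by exact_mod_cast Nat.factorial_pos _
    have hden : (0 : ℝ) < (m : ℝ) ^ (M + D) * ((m - 1).factorial : ℝ) ^ J := by positivity
    have hz1' : (1 : ℝ) ≤ (m : ℝ) ^ (M + D) * ((m - 1).factorial : ℝ) ^ J * |G m| := by
      have h3 : z ≠ 0 := by
        rintro rfl
        rw [Int.cast_zero] at hz
        rcases mul_eq_zero.1 hz with h4 | h4
        · exact hden.ne' h4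
        · exact hmG h4
      have h4 : (1 : ℝ) ≤ |(z : ℝ)| := by
        rw [← Int.cast_abs]
        exact_mod_cast Int.one_le_abs h3
      rwa [← hz, abs_mul, abs_of_pos hden] at h4
    have hfac : ((m - 1).factorial : ℝ) ≤ (m : ℝ) ^ K := by
      have h3 : (m - 1).factorial ≤ m ^ K := by
        calc (m - 1).factorial ≤ (m - 1) ^ (m - 1) := Nat.factorial_le_pow _
          _ ≤ m ^ (m - 1) := Nat.pow_le_pow_left (Nat.sub_le _ _) _
          _ ≤ m ^ K := Nat.pow_le_pow_right (by omega) (by omega)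
      exact_mod_cast h3
    have hdenle : (m : ℝ) ^ (M + D) * ((m - 1).factorial : ℝ) ^ J ≤ (m : ℝ) ^ (M + D + J * K) := by
      rw [pow_add _ (M + D), mul_comm J K, pow_mul]
      exact mul_le_mul_of_nonneg_left (pow_le_pow_left₀ hF0.le hfac _) (by positivity)
    have hlow : ((m : ℝ) ^ (M + D + J * K))⁻¹ ≤ |G m| := by
      rw [inv_le_iff_one_le_mul₀ (by positivity), mul_comm]
      exact hz1'.trans (mul_le_mul_of_nonneg_right hdenle (abs_nonneg _))
    have htail : |tl G (m + 1)| ≤ ((m : ℝ) ^ (M + D + J * K))⁻¹ / 2 := by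
      refine (htl (m + 1) (by omega)).trans ?_
      have h3 := two_pow_le (M := M) (K := K) (m := m) (by omega) hmK
      have h4 : (((m + 1 : ℕ) : ℝ)) ^ 3 * (m : ℝ) ^ (D + J * K) ≤
          ((K : ℝ) + 1) ^ (D + 3 + J * K) := by
        have h5 : ((m + 1 : ℕ) : ℝ) ≤ (K : ℝ) + 1 := by
          push_cast
          have : (m : ℝ) ≤ K := by exact_mod_cast hmK
          linarith
        have h6 : (m : ℝ) ≤ (K : ℝ) + 1 := by
          have : (m : ℝ) ≤ K := by exact_mod_cast hmK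
          linarith
        calc (((m + 1 : ℕ) : ℝ)) ^ 3 * (m : ℝ) ^ (D + J * K)
            ≤ ((K : ℝ) + 1) ^ 3 * ((K : ℝ) + 1) ^ (D + J * K) := by
              refine mul_le_mul (pow_le_pow_left₀ (by positivity) h5 _)
                (pow_le_pow_left₀ hm0.le h6 _) (by positivity) (by positivity)
          _ = _ := by
              rw [← pow_add]
              congr 1
              omega
      have h7 : 4 * Cs * (((m + 1 : ℕ) : ℝ) ^ 3 * (m : ℝ) ^ (D + J * K)) * (m : ℝ) ^ M ≤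
          ((m + 1 : ℕ) : ℝ) ^ M := by
        refine le_trans ?_ h3
        refine mul_le_mul_of_nonneg_right (le_trans ?_ hcond) (by positivity)
        exact mul_le_mul_of_nonneg_left h4 (by positivity)
      have h8 : (0 : ℝ) < ((m + 1 : ℕ) : ℝ) ^ M := by positivity
      rw [← div_eq_mul_inv, div_le_iff₀ h8]
      have h9 : (m : ℝ) ^ (M + D + J * K) = (m : ℝ) ^ (D + J * K) * (m : ℝ) ^ M := by
        rw [← pow_add]
        congr 1
        omega
      rw [h9]
      have h10 : (0 : ℝ) < (m : ℝ) ^ (D + J * K) * (m : ℝ) ^ M := by positivity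
      rw [inv_eq_one_div, div_div, div_mul_eq_mul_div, one_mul, le_div_iff₀ (by positivity)]
      calc 2 * Cs * ((m + 1 : ℕ) : ℝ) ^ 3 * ((m : ℝ) ^ (D + J * K) * (m : ℝ) ^ M * 2)
          = 4 * Cs * (((m + 1 : ℕ) : ℝ) ^ 3 * (m : ℝ) ^ (D + J * K)) * (m : ℝ) ^ M := by ring
        _ ≤ _ := h7
    have h11 : ((m : ℝ) ^ (M + D + J * K))⁻¹ / 2 ≤ |G m + tl G (m + 1)| := by
      have h12 : |G m| ≤ |G m + tl G (m + 1)| + |tl G (m + 1)| := by
        calc |G m| = |(G m + tl G (m + 1)) - tl G (m + 1)| := by ring_nf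
          _ ≤ _ := abs_sub _ _
      linarith
    refine le_trans ?_ h11
    rw [mul_inv, mul_comm, ← div_eq_mul_inv]
    refine div_le_div_of_nonneg_right ?_ (by norm_num)
    refine inv_anti₀ (by positivity) ?_
    exact pow_le_pow_left₀ hm0.le (by exact_mod_cast hmK) _
  · -- the first case
    have h1 : tl G 1 = G 1 + tl G 2 := by
      rw [hsplit 2 (by norm_num)]
      simp
    have h2 : (1 : ℝ) ≤ |(a0 : ℝ) + G 1| := by
      rw [hz1] at hP ⊢
      have h3 : a0 + z1 ≠ 0 := by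
        intro h
        apply hP
        exact_mod_cast h
      have h4 : (1 : ℝ) ≤ ((|a0 + z1| : ℤ) : ℝ) := by exact_mod_cast Int.one_le_abs h3
      rw [Int.cast_abs] at h4
      push_cast at h4
      exact h4
    have h3 : |tl G 2| ≤ 1 / 2 := by
      refine (htl 2 (by norm_num)).trans ?_
      have h4 : (2 : ℝ) ^ (M / K) ≤ 2 ^ M := pow_le_pow_right₀ one_le_two (Nat.div_le_self _ _)
      have h5 : (27 : ℝ) ≤ ((K : ℝ) + 1) ^ (D + 3) := by
        calc (27 : ℝ) = 3 ^ 3 := by norm_num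
          _ ≤ ((K : ℝ) + 1) ^ 3 := pow_le_pow_left₀ (by norm_num) (by linarith) _
          _ ≤ ((K : ℝ) + 1) ^ (D + 3) := pow_le_pow_right₀ (by linarith) (by omega)
      have h6 : 4 * Cs * 27 ≤ 2 ^ M := by
        refine le_trans ?_ (hcond1.trans h4)
        exact mul_le_mul_of_nonneg_left h5 (by positivity)
      have h7 : (0 : ℝ) < 2 ^ M := by positivity
      rw [← div_eq_mul_inv]
      push_cast
      rw [div_le_iff₀ h7]
      nlinarith
    have h4 : 1 / 2 ≤ |(a0 : ℝ) + tl G 1| := by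
      rw [h1, ← add_assoc]
      have h12 : |(a0 : ℝ) + G 1| ≤ |(a0 : ℝ) + G 1 + tl G 2| + |tl G 2| := by
        calc |(a0 : ℝ) + G 1| = |((a0 : ℝ) + G 1 + tl G 2) - tl G 2| := by ring_nf
          _ ≤ _ := abs_sub _ _
      linarith
    refine le_trans ?_ h4
    rw [one_div]
    refine inv_anti₀ two_pos ?_
    have h5 : (1 : ℝ) ≤ (K : ℝ) ^ (M + D + J * K) := one_le_pow₀ (by linarith)
    linarith

end Pool.Agent.V8H86.GC
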