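import Pool.Agent.V8H86.GC.A
import Pool.Agent.R404.MZ.Fin

/-!
# Real and imaginary parts of multiple Clausen values as series (helper86)
-/

set_option autoImplicit false

namespace Pool.Agent.V8H86.GC

open Finset
open Pool.Agent.Y760.ZG (hr hr_nil hr_cons hr_nonneg mz tl)
open Pool.Agent.Y777.AM (ht hr_le_self mz_nonneg summ32 Z32 Sf f2 f2_nonneg Sf2_le hr_ht Sf_nonneg)
open Pool.Agent.R404.MZ

/-- `2 cos (π k / 3)` -/
def p6 (k : ℕ) : ℤ :=
  if k % 6 = 0 then 2 else if k % 6 = 1 then 1 else if k % 6 = 2 then -1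
  else if k % 6 = 3 then -2 else if k % 6 = 4 then -1 else 1

/-- `2 sin (π k / 3) / √3` -/
def q6 (k : ℕ) : ℤ :=
  if k % 6 = 0 then 0 else if k % 6 = 1 then 1 else if k % 6 = 2 then 1
  else if k % 6 = 3 then 0 else if k % 6 = 4 then -1 else -1

lemma p6_le (k : ℕ) : |p6 k| ≤ 2 := by
  unfold p6
  split_ifs <;> norm_num

lemma q6_le (k : ℕ) : |q6 k| ≤ 1 := by
  unfold q6
  split_ifs <;> norm_num

lemma p6_succ (k : ℕ) : 2 * p6 (k + 1) = p6 k - 3 * q6 k := by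
  have h : k % 6 < 6 := Nat.mod_lt _ (by norm_num)
  have h1 : (k + 1) % 6 = (k % 6 + 1) % 6 := by omega
  unfold p6 q6
  rw [h1]
  interval_cases (k % 6) <;> norm_num

lemma q6_succ (k : ℕ) : 2 * q6 (k + 1) = p6 k + q6 k := by
  have h : k % 6 < 6 := Nat.mod_lt _ (by norm_num)
  have h1 : (k + 1) % 6 = (k % 6 + 1) % 6 := by omega
  unfold p6 q6
  rw [h1]
  interval_cases (k % 6) <;> norm_num

/-- `√-3` -/
noncomputable def r3 : ℂ := (Real.sqrt 3 : ℝ) * Complex.I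

lemma r3_sq : r3 * r3 = -3 := by
  have h1 : ((Real.sqrt 3 : ℝ) : ℂ) * ((Real.sqrt 3 : ℝ) : ℂ) = 3 := by
    rw [← Complex.ofReal_mul, Real.mul_self_sqrt (by norm_num)]
    norm_num
  calc r3 * r3 = (((Real.sqrt 3 : ℝ) : ℂ) * ((Real.sqrt 3 : ℝ) : ℂ)) *
      (Complex.I * Complex.I) := by rw [r3]; ring
    _ = -3 := by rw [h1, Complex.I_mul_I]; norm_num

/-- the sixth root of unity -/
noncomputable def om : ℂ := Complex.exp (Real.pi * Complex.I / 3)

lemma om_eq : om = 1 / 2 + r3 / 2 := by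
  rw [om, show (Real.pi : ℂ) * Complex.I / 3 = ((Real.pi / 3 : ℝ) : ℂ) * Complex.I by
    push_cast; ring, Complex.exp_mul_I, ← Complex.ofReal_cos, ← Complex.ofReal_sin,
    Real.cos_pi_div_three, Real.sin_pi_div_three, r3]
  push_cast
  ring

lemma om_pow (k : ℕ) : om ^ k = ((p6 k : ℤ) : ℂ) / 2 + r3 * (((q6 k : ℤ) : ℂ) / 2) := by
  induction k with
  | zero => simp [p6, q6]
  | succ k ih =>
    have h1 : (2 : ℂ) * ((p6 (k + 1) : ℤ) : ℂ) = ((p6 k : ℤ) : ℂ) - 3 * ((q6 k : ℤ) : ℂ) := by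
      exact_mod_cast congrArg (Int.cast : ℤ → ℂ) (p6_succ k)
    have h2 : (2 : ℂ) * ((q6 (k + 1) : ℤ) : ℂ) = ((p6 k : ℤ) : ℂ) + ((q6 k : ℤ) : ℂ) := by
      exact_mod_cast congrArg (Int.cast : ℤ → ℂ) (q6_succ k)
    rw [pow_succ, ih, om_eq]
    have h := r3_sq
    linear_combination (((q6 k : ℤ) : ℂ) / 4) * h - h1 / 4 - r3 * h2 / 4

/-- truncated sums -/
noncomputable def trc : List (ℕ × ℂ) → ℕ → ℂ
  | [], _ => 1
  | x :: l, m => ∑ j ∈ Finset.Ico 1 m, x.2 ^ j / (j : ℂ) ^ x.1 * trc l j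

/-- multiple polylogarithms -/
noncomputable def li : List (ℕ × ℂ) → ℂ
  | [] => 1
  | x :: l => ∑' k : ℕ, x.2 ^ (k + 1) / ((k + 1 : ℕ) : ℂ) ^ x.1 * trc l (k + 1)

/-- the arguments `(a, z), (k_2, 1), ..., (k_t, 1)` -/
noncomputable def cz (z : ℂ) : List ℕ → List (ℕ × ℂ)
  | [] => []
  | a :: k => (a, z) :: k.map fun s => (s, 1)

lemma trc_one (k : List ℕ) : ∀ m, trc (k.map fun s => (s, (1 : ℂ))) m = ((hr k m : ℝ) : ℂ) := by
  induction k with
  | nil => intro m; rw [List.map_nil, trc, hr_nil]; simp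
  | cons s k ih =>
    intro m
    rw [List.map_cons, trc, hr_cons]
    push_cast
    refine Finset.sum_congr rfl fun j _ => ?_
    rw [ih, one_pow]
    ring

lemma trc_le (l : List (ℕ × ℂ)) (hl : ∀ x ∈ l, ‖x.2‖ ≤ 1) :
    ∀ m, ‖trc l m‖ ≤ hr (l.map Prod.fst) m := by
  induction l with
  | nil => intro m; rw [trc, List.map_nil, hr_nil]; simp
  | cons x l ih =>
    intro m
    rw [trc, List.map_cons, hr_cons]
    refine (norm_sum_le _ _).trans (Finset.sum_le_sum fun j _ => ?_)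
    rw [norm_mul, norm_div, norm_pow, norm_pow, Complex.norm_natCast, div_mul_eq_mul_div]
    refine div_le_div_of_nonneg_right ?_ (by positivity)
    have h1 : ‖x.2‖ ^ j ≤ 1 := pow_le_one₀ (norm_nonneg _) (hl x List.mem_cons_self)
    have h2 := ih (fun y hy => hl y (List.mem_cons_of_mem _ hy)) j
    calc ‖x.2‖ ^ j * ‖trc l j‖ ≤ 1 * hr (l.map Prod.fst) j :=
          mul_le_mul h1 h2 (norm_nonneg _) zero_le_one
      _ = _ := one_mul _

lemma summ2 {a : ℕ} {u : List ℕ} (hu : ∀ m ∈ u, 1 ≤ m) (ha : 2 ≤ a) :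
    Summable fun k : ℕ => hr u (k + 1) / ((k + 1 : ℕ) : ℝ) ^ a := by
  set D := ht u with hD
  have h1 : ∀ k : ℕ, hr u (k + 1) / ((k + 1 : ℕ) : ℝ) ^ a ≤
      (2 ^ u.length * (2 ^ D / D.factorial)) *
        (Real.sqrt ((k + 1 : ℕ) : ℝ) / ((k + 1 : ℕ) : ℝ) ^ 2) := by
    intro k
    have h2 : (1 : ℝ) ≤ ((k + 1 : ℕ) : ℝ) := by exact_mod_cast Nat.le_add_left 1 k
    have h3 := hr_ht u hu (k + 1) (by omega)
    have h4 : hr u (k + 1) / ((k + 1 : ℕ) : ℝ) ^ a ≤ hr u (k + 1) / ((k + 1 : ℕ) : ℝ) ^ 2 :=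
      div_le_div_of_nonneg_left (hr_nonneg _ _) (by positivity) (pow_le_pow_right₀ h2 ha)
    have h5 : Sf f2 (k + 1) ^ D ≤ 2 ^ D :=
      pow_le_pow_left₀ (Sf_nonneg f2_nonneg _) (Sf2_le _) _
    calc hr u (k + 1) / ((k + 1 : ℕ) : ℝ) ^ a ≤ hr u (k + 1) / ((k + 1 : ℕ) : ℝ) ^ 2 := h4
      _ ≤ (2 ^ u.length * Real.sqrt ((k + 1 : ℕ) : ℝ) * (Sf f2 (k + 1) ^ D / D.factorial)) /
          ((k + 1 : ℕ) : ℝ) ^ 2 := div_le_div_of_nonneg_right h3 (by positivity)
      _ ≤ (2 ^ u.length * Real.sqrt ((k + 1 : ℕ) : ℝ) * (2 ^ D / D.factorial)) /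
          ((k + 1 : ℕ) : ℝ) ^ 2 := by gcongr
      _ = _ := by ring
  have hs := summ32.mul_left (2 ^ u.length * (2 ^ D / (D.factorial : ℝ)))
  exact Summable.of_nonneg_of_le (fun k => div_nonneg (hr_nonneg _ _) (by positivity)) h1 hs

lemma li_le {l : List (ℕ × ℂ)} (h1 : ∀ x ∈ l, 1 ≤ x.1 ∧ ‖x.2‖ ≤ 1)
    (h2 : ∀ x ∈ l.head?, 2 ≤ x.1) : ‖li l‖ ≤ mz (l.map Prod.fst) := by
  cases l with
  | nil => rw [li, List.map_nil, mz]; simp
  | cons x l =>
    rw [li, List.map_cons, mz]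
    have hs : Summable fun k : ℕ => hr (l.map Prod.fst) (k + 1) / ((k + 1 : ℕ) : ℝ) ^ x.1 := by
      refine summ2 (fun m hm => ?_) (h2 x (by simp))
      obtain ⟨y, hy, rfl⟩ := List.mem_map.1 hm
      exact (h1 y (List.mem_cons_of_mem _ hy)).1
    refine tsum_of_norm_bounded hs.hasSum fun k => ?_
    rw [norm_mul, norm_div, norm_pow, norm_pow, Complex.norm_natCast, div_mul_eq_mul_div]
    refine div_le_div_of_nonneg_right ?_ (by positivity)
    have h3 : ‖x.2‖ ^ (k + 1) ≤ 1 := pow_le_one₀ (norm_nonneg _) (h1 x List.mem_cons_self).2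
    have h4 := trc_le l (fun y hy => (h1 y (List.mem_cons_of_mem _ hy)).2) (k + 1)
    calc ‖x.2‖ ^ (k + 1) * ‖trc l (k + 1)‖ ≤ 1 * hr (l.map Prod.fst) (k + 1) :=
          mul_le_mul h3 h4 (norm_nonneg _) zero_le_one
      _ = _ := one_mul _

/-- a weighted series -/
noncomputable def ws (v : ℕ → ℤ) (a : ℕ) (k : List ℕ) : ℝ :=
  ∑' m : ℕ, (v (m + 1) : ℝ) * (hr k (m + 1) / ((m + 1 : ℕ) : ℝ) ^ a)

lemma ws_summ {v : ℕ → ℤ} {B : ℝ} (hv : ∀ m, |(v m : ℝ)| ≤ B) {a : ℕ} {k : List ℕ}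
    (hk : ∀ x ∈ k, 1 ≤ x) (ha : 2 ≤ a) :
    Summable fun m : ℕ => (v (m + 1) : ℝ) * (hr k (m + 1) / ((m + 1 : ℕ) : ℝ) ^ a) := by
  refine Summable.of_norm_bounded ((summ2 hk ha).mul_left B) fun m => ?_
  have h1 : 0 ≤ hr k (m + 1) / ((m + 1 : ℕ) : ℝ) ^ a :=
    div_nonneg (hr_nonneg _ _) (by positivity)
  rw [Real.norm_eq_abs, abs_mul, abs_of_nonneg h1]
  exact mul_le_mul_of_nonneg_right (hv (m + 1)) h1

lemma p6_le' (u m : ℕ) : |(p6 (u * m) : ℝ)| ≤ 2 := by exact_mod_cast p6_le (u * m)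

lemma q6_le' (u m : ℕ) : |(q6 (u * m) : ℝ)| ≤ 1 := by exact_mod_cast q6_le (u * m)

lemma li_cz (u : ℕ) {a : ℕ} {k : List ℕ} (hk : ∀ x ∈ k, 1 ≤ x) (ha : 2 ≤ a) :
    li (cz (om ^ u) (a :: k)) = ((ws (fun m => p6 (u * m)) a k / 2 : ℝ) : ℂ) +
      r3 * ((ws (fun m => q6 (u * m)) a k / 2 : ℝ) : ℂ) := by
  have h1 := (Complex.hasSum_ofReal.2 (ws_summ (p6_le' u) hk ha).hasSum).div_const 2
  have h2 := ((Complex.hasSum_ofReal.2 (ws_summ (q6_le' u) hk ha).hasSum).div_const 2).mul_left r3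
  have h3 := h1.add h2
  rw [cz, li]
  push_cast
  refine Eq.trans (tsum_congr fun m => ?_) h3.tsum_eq
  rw [trc_one, ← pow_mul, om_pow]
  push_cast
  ring

lemma cz_re (u : ℕ) {a : ℕ} {k : List ℕ} (hk : ∀ x ∈ k, 1 ≤ x) (ha : 2 ≤ a) :
    (li (cz (om ^ u) (a :: k))).re = ws (fun m => p6 (u * m)) a k / 2 := by
  rw [li_cz u hk ha]
  have h4 : r3.re = 0 := by simp [r3]
  rw [Complex.add_re, Complex.ofReal_re, Complex.mul_re, Complex.ofReal_re, Complex.ofReal_im, h4]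
  ring

lemma cz_im (u : ℕ) {a : ℕ} {k : List ℕ} (hk : ∀ x ∈ k, 1 ≤ x) (ha : 2 ≤ a) :
    (li (cz (om ^ u) (a :: k))).im / Real.sqrt 3 = ws (fun m => q6 (u * m)) a k / 2 := by
  rw [li_cz u hk ha]
  have h4 : r3.re = 0 := by simp [r3]
  have h5 : r3.im = Real.sqrt 3 := by simp [r3]
  have h3 : Real.sqrt 3 ≠ 0 := by
    rw [Real.sqrt_ne_zero (by norm_num)]
    norm_num
  rw [Complex.add_im, Complex.ofReal_im, Complex.mul_im, Complex.ofReal_re, Complex.ofReal_im, h4,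
    h5]
  field_simp
  ring

section

variable {ι : Type} [Fintype ι]

/-- the weighted combination -/
noncomputable def Gp (a : ι → ℕ) (k : ι → List ℕ) (F : ι → ℕ → ℤ) (n : ℕ) : ℝ :=
  Gf a k (fun j => F j n) n

lemma Gp_sum {a : ι → ℕ} {k : ι → List ℕ} {F : ι → ℕ → ℤ} {B : ℝ}
    (hk : ∀ j, ∀ x ∈ k j, 1 ≤ x) (ha : ∀ j, 2 ≤ a j) (hF : ∀ j n, |(F j n : ℝ)| ≤ B) :
    ∑ j, ws (F j) (a j) (k j) = tl (Gp a k F) 1 := by
  have h1 := fun j => ws_summ (hF j) (hk j) (ha j)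
  have h3 : tl (Gp a k F) 1 = ∑' m : ℕ, ∑ j,
      ((F j (m + 1) : ℝ) * (hr (k j) (m + 1) / ((m + 1 : ℕ) : ℝ) ^ a j)) := rfl
  rw [h3, Summable.tsum_finsetSum fun j _ => h1 j]
  rfl

/-- combinations do not vanish at too many terms of a progression -/
lemma nz_prog (M D J r K b s : ℕ) (a : ι → ℕ) (k : ι → List ℕ) (c : ι → ℤ)
    (hk : ∀ j, (k j).length ≤ r ∧ (∀ x ∈ k j, 1 ≤ x) ∧ (k j).sum ≤ J)
    (ha : ∀ j, M ≤ a j ∧ a j ≤ M + D) (hinj : Function.Injective fun j => (a j, k j))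
    (hc : c ≠ 0) (hb : 1 ≤ b) (hs : 1 ≤ s) (hK : b + s * ((D + 1) * (J + 2) ^ r) ≤ K) :
    ∃ i, b + s * i ≤ K ∧ Gf a k c (b + s * i) ≠ 0 := by
  classical
  by_contra hcon
  push Not at hcon
  refine box_signs J r D (fun j => (a j : ℤ)) k (fun j => (c j : ℝ))
    (fun j => ⟨(hk j).1, fun x hx => ⟨(hk j).2.1 x hx,
      (List.le_sum_of_mem hx).trans (hk j).2.2⟩⟩)
    (fun i j => by
      have h1 := (ha i).2
      have h2 := (ha j).1
      omega)
    (fun i j h => hinj (by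
      simp only [Prod.mk.injEq, Nat.cast_inj] at h ⊢
      exact h))
    (fun h => hc (by
      funext j
      have h1 := congrFun h j
      simpa using h1)) K ⟨fun i => b + s * i, 1, Or.inl rfl, by
      show 1 ≤ b + s * 0
      omega, by
      show b + s * ((D + 1) * (J + 2) ^ r) ≤ K
      exact hK,
      fun i _ => by
        show b + s * i < b + s * (i + 1)
        rw [mul_add, mul_one]
        omega, fun i hi => ?_⟩
  rw [← Gf_cmb]
  rw [hcon i (by
    have : s * i ≤ s * ((D + 1) * (J + 2) ^ r) := Nat.mul_le_mul_left s (by omega)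
    omega), mul_zero]

lemma per_prog {m : ℕ} {f : ℕ → ℤ} (hf : ∀ n, f (n + m) = f n) (b i : ℕ) :
    f (b + m * i) = f b := by
  induction i with
  | zero => rw [mul_zero, add_zero]
  | succ i ih => rw [mul_add, mul_one, ← add_assoc, hf, ih]

/-- **the explicit lower bound** -/
theorem explP (M D J r K m : ℕ) (hm : 1 ≤ m) (a : ι → ℕ) (k : ι → List ℕ) (F : ι → ℕ → ℤ)
    (a0 : ℤ) (hk : ∀ j, (k j).length ≤ r ∧ (∀ x ∈ k j, 1 ≤ x) ∧ (k j).sum ≤ J)
    (ha : ∀ j, M ≤ a j ∧ a j ≤ M + D) (hinj : Function.Injective fun j => (a j, k j))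
    (hper : ∀ j n, F j (n + m) = F j n)
    (hc : a0 ≠ 0 ∨ ∃ j n, F j n ≠ 0) (hK : (m + 1) + m * ((D + 1) * (J + 2) ^ r) ≤ K) (hM : 3 ≤ M)
    (B Cs : ℝ) (hCs : 1 ≤ Cs) (hB : ∀ j n, |(F j n : ℝ)| ≤ B)
    (hC : (Fintype.card ι : ℝ) * B ≤ Cs)
    (hcond : 4 * Cs * ((K : ℝ) + 1) ^ (D + 3 + J * K) ≤ 2 ^ (M / K)) :
    (2 * (K : ℝ) ^ (M + D + J * K))⁻¹ ≤ |(a0 : ℝ) + ∑ j, ws (F j) (a j) (k j)| := by
  have hk1 : ∀ j, ∀ x ∈ k j, 1 ≤ x := fun j => (hk j).2.1
  have h1 := expl M D J K (Gp a k F) a0 (by omega) hM Cs hCs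
    (fun m hm => Gf_bd hk1 (fun j => (ha j).1) (by
      refine le_trans (Finset.sum_le_sum fun j _ => hB j m) ?_
      rw [Finset.sum_const, Finset.card_univ, nsmul_eq_mul]
      exact hC) m hm)
    (fun m hm => Gf_int hm (fun i h1 h2 => Nat.dvd_factorial h1 (by omega)) (fun j => (hk j).2.2)
      (fun j => (ha j).2)) (by
      by_cases h : ∃ j n, F j n ≠ 0
      · right
        obtain ⟨j, n, hjn⟩ := h
        -- the residue class of `n`
        set b : ℕ := if n % m ≤ 1 then n % m + m else n % m with hb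
        have hlt : n % m < m := Nat.mod_lt _ hm
        have hb1 : 1 ≤ b ∧ b ≤ m + 1 := by
          rw [hb]
          split_ifs <;> omega
        have hFb : ∀ j, F j n = F j b := by
          intro j
          have e1 : F j n = F j (n % m) := by
            have e2 := per_prog (hper j) (n % m) (n / m)
            rw [Nat.mod_add_div] at e2
            exact e2
          rw [e1, hb]
          split_ifs
          · rw [hper j]
          · rfl
        have hc1 : (fun j => F j b) ≠ 0 := by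
          intro h2
          apply hjn
          rw [hFb j]
          exact congrFun h2 j
        have hKb : (b + m) + m * ((D + 1) * (J + 2) ^ r) ≤ K + m := by omega
        by_cases hb2 : b = 1
        · -- then `m = 1`
          have hm1 : m = 1 := by
            rw [hb] at hb2
            split_ifs at hb2 <;> omega
          obtain ⟨i, h4, h5⟩ := nz_prog M D J r K 2 m a k (fun j => F j b) hk ha hinj hc1
            (by norm_num) hm (by rw [hm1] at hK ⊢; exact hK)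
          refine ⟨2 + m * i, by omega, h4, ?_⟩
          have e3 : ∀ j, F j (2 + m * i) = F j b := by
            intro j
            rw [per_prog (hper j), hb2]
            have := hper j 1
            rw [hm1] at this
            exact this
          show Gf a k (fun j => F j (2 + m * i)) (2 + m * i) ≠ 0
          rw [show (fun j => F j (2 + m * i)) = fun j => F j b from funext e3]
          exact h5
        · obtain ⟨i, h4, h5⟩ := nz_prog M D J r K b m a k (fun j => F j b) hk ha hinj hc1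
            hb1.1 hm (by omega)
          refine ⟨b + m * i, by omega, h4, ?_⟩
          show Gf a k (fun j => F j (b + m * i)) (b + m * i) ≠ 0
          rw [show (fun j => F j (b + m * i)) = fun j => F j b from
            funext fun j => per_prog (hper j) b i]
          exact h5
      · left
        have h0 : a0 ≠ 0 := by
          rcases hc with h2 | h2
          · exact h2
          · exact absurd h2 h
        push Not at h
        have h2 : Gp a k F 1 = 0 := by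
          unfold Gp Gf
          refine Finset.sum_eq_zero fun j _ => ?_
          show ((F j 1 : ℤ) : ℝ) * _ = 0
          rw [h j 1]
          simp
        rw [h2, add_zero]
        exact_mod_cast h0)
    hcond
  rwa [← Gp_sum hk1 (fun j => by have := (ha j).1; omega) hB] at h1

end

end Pool.Agent.V8H86.GC
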